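import Pool.Agent.Lib.MP_a9d022_lc.Agp.All

/-!
# MP_a9d022_lc: subset sum in P and acyclic graph word problem NP-hard, for all finitely generated groups
-/

namespace Pool.Agent.Results.MP_a9d022_lc.AgpAllGroups

open Pool.Agent.SspConj Pool.Agent.AgpSsp

/-- Let `G` be generated by `X 0, …, X (r - 1)` and let its subset sum problem be in `P`. Then the
acyclic graph word problem of `G` is decided, for infinitely many input lengths `n`, in polynomial time
with an advice string of subexponential length (`IoSubexp`), and it is in P/poly if the growth of `G` is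
at least `2 ^ (n ^ c)` for some `c > 0` (`FastGrowth`). If moreover the acyclic graph word problem is
NP-hard, the same holds for all problems in `NP`. -/
theorem result {G : Type} [Group G] {r : ℕ} (X : Fin r → G)
    (hX : Subgroup.closure (Set.range X) = ⊤) (hS : SSP X ∈ N68a2faeb.P) :
    (AGP X ∈ IoSubexp ∧ (FastGrowth X → AGP X ∈ PPoly)) ∧
      (NPHard (AGP X) → N68a2faeb.NP ⊆ IoSubexp ∧ (FastGrowth X → N68a2faeb.NP ⊆ PPoly)) :=
  ⟨⟨(agp_mem X hX hS).2, (agp_mem X hX hS).1⟩,
    fun hA => ⟨(np_subset X hX hS hA).2, (np_subset X hX hS hA).1⟩⟩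

end Pool.Agent.Results.MP_a9d022_lc.AgpAllGroups
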