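import Pool.Agent.Lib.MP_a9d022_lc.Final

/-!
# MP_a9d022_lc: subset sum in groups with infinitely many commuting torsion conjugates
-/

namespace Pool.Agent.Results.MP_a9d022_lc.TorsionConjugates

open Pool.Agent.SspConj

/-- Let `G` be generated by `X 0, …, X (r - 1)`, let `H` be a finitely generated subgroup of `G` and
let `a` be an element of finite order whose conjugates by the elements of `H` pairwise commute and
are infinitely many. If the subset sum problem of `G` is in `P` then `NP ⊆ P`. -/
theorem result {G : Type} [Group G] {r : ℕ} (X : Fin r → G)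
    (hX : Subgroup.closure (Set.range X) = ⊤) (H : Subgroup G) (hH : H.FG) (a : G)
    (ha : IsOfFinOrder a)
    (hcomm : ∀ h ∈ H, ∀ k ∈ H, Commute (h * a * h⁻¹) (k * a * k⁻¹))
    (hinf : {x | ∃ h ∈ H, x = h * a * h⁻¹}.Infinite)
    (hP : SSP X ∈ N68a2faeb.P) : N68a2faeb.NP ⊆ N68a2faeb.P :=
  collapse X hX hH ha hcomm hinf hP

end Pool.Agent.Results.MP_a9d022_lc.TorsionConjugates
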