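import Pool.Agent.Lib.MP_a9d022_lc.Zpp.Fin
import Pool.Agent.Lib.MP_a9d022_lc.Zpp.Pad

/-!
# MP_a9d022_lc: uniform algorithms for the acyclic graph word problem if the subset sum problem is in P

`FastMod X`: the growth of the group modulo its central elements of order at most two is at least
`2 ^ (n ^ c)` for some `c > 0`. In this case random words are chosen as tokens one after the other, and
every choice is certified by subset sum queries: the algorithm never errs. If the growth function is
smaller than `2 ^ (n ^ (1 / k))` for infinitely many `n`, for all `k`, then the multiplication table of a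
ball is computed with the word problem as an oracle, and the reachable states are computed.
-/

namespace Pool.Agent.Results.MP_a9d022_lc.ZeroError

open Pool.Agent.SspConj Pool.Agent.AgpSsp

/-- Let `G` be generated by `X 0, …, X (r - 1)`, and let its subset sum problem be in `P`. If `FastMod X`
then the acyclic graph word problem of `G` is in ZPP, and `NP ⊆ ZPP` if it is NP-hard. If not
`FastGrowth X` then the same holds with deterministic subexponential time, infinitely often. One of the
two cases occurs if `G` has finitely many central elements of order at most two, and the first one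
if `G` contains two elements which generate freely a free monoid. -/
theorem result {G : Type} [Group G] {r : ℕ} (X : Fin r → G)
    (hX : Subgroup.closure (Set.range X) = ⊤) (hS : SSP X ∈ N68a2faeb.P) :
    (FastMod X → AGP X ∈ ZPP ∧ (NPHard (AGP X) → N68a2faeb.NP ⊆ ZPP)) ∧
    (¬ FastGrowth X → AGP X ∈ IoSub ∧ (NPHard (AGP X) → N68a2faeb.NP ⊆ IoSub)) ∧
    ((Cinv G : Set G).Finite → FastMod X ∨ ¬ FastGrowth X) ∧
    ((∃ x y : G, FreePair x y) → FastMod X) := by
  refine ⟨fun h => agp_mem_ZPP X hX hS h, fun h => SG.agp_mem_ioSub X hS h, fun h => ?_,
    fun ⟨x, y, h⟩ => fastMod_of_free X hX h⟩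
  by_cases hF : FastGrowth X
  · exact Or.inl (fastMod_of_finite X hF h)
  · exact Or.inr hF

end Pool.Agent.Results.MP_a9d022_lc.ZeroError
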